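import Mathlib

/-!
# A fuzzy implication with contrapositive symmetry only (MP_e504dd_lc, Q1)

The Rescher implication `I(x, y) = 1` if `x ≤ y` and `0` otherwise satisfies (CP) with respect to
every strictly decreasing negation, and satisfies neither (L-CP) nor (R-CP) with respect to
`N(x) = 1 - x ^ 2`.
-/

namespace Pool.Agent.Results.MP_e504dd_lc.OnlyCP

open Set

/-- A fuzzy negation. -/
structure IsNegation (N : Icc (0 : ℝ) 1 → Icc (0 : ℝ) 1) : Prop where
  anti : Antitone N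
  zero : N 0 = 1
  one : N 1 = 0

/-- A fuzzy implication. -/
structure IsImplication (I : Icc (0 : ℝ) 1 → Icc (0 : ℝ) 1 → Icc (0 : ℝ) 1) : Prop where
  anti_left : ∀ y, Antitone fun x => I x y
  mono_right : ∀ x, Monotone (I x)
  zero_zero : I 0 0 = 1
  one_one : I 1 1 = 1
  one_zero : I 1 0 = 0

/-- (CP): contrapositive symmetry. -/
def CP (I : Icc (0 : ℝ) 1 → Icc (0 : ℝ) 1 → Icc (0 : ℝ) 1)
    (N : Icc (0 : ℝ) 1 → Icc (0 : ℝ) 1) : Prop := ∀ x y, I x y = I (N y) (N x)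

/-- (L-CP): left contrapositive symmetry. -/
def LCP (I : Icc (0 : ℝ) 1 → Icc (0 : ℝ) 1 → Icc (0 : ℝ) 1)
    (N : Icc (0 : ℝ) 1 → Icc (0 : ℝ) 1) : Prop := ∀ x y, I (N x) y = I (N y) x

/-- (R-CP): right contrapositive symmetry. -/
def RCP (I : Icc (0 : ℝ) 1 → Icc (0 : ℝ) 1 → Icc (0 : ℝ) 1)
    (N : Icc (0 : ℝ) 1 → Icc (0 : ℝ) 1) : Prop := ∀ x y, I x (N y) = I y (N x)

/-- There are a fuzzy implication and a fuzzy negation such that (CP) holds, and both (L-CP) and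
(R-CP) fail, with respect to the same negation. -/
theorem result : ∃ (I : Icc (0 : ℝ) 1 → Icc (0 : ℝ) 1 → Icc (0 : ℝ) 1)
    (N : Icc (0 : ℝ) 1 → Icc (0 : ℝ) 1),
    IsImplication I ∧ IsNegation N ∧ CP I N ∧ ¬ LCP I N ∧ ¬ RCP I N := by
  classical
  have h01 : (0 : Icc (0 : ℝ) 1) ≠ 1 := zero_ne_one
  have hN : ∀ x : Icc (0 : ℝ) 1, 1 - (x : ℝ) ^ 2 ∈ Icc (0 : ℝ) 1 := by
    intro x
    have h0 := x.2.1
    have h1 := x.2.2
    constructor <;> nlinarith
  refine ⟨fun x y => if x ≤ y then 1 else 0, fun x => ⟨1 - (x : ℝ) ^ 2, hN x⟩,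
    ⟨?_, ?_, ?_, ?_, ?_⟩, ⟨?_, ?_, ?_⟩, ?_, ?_, ?_⟩
  · intro y a b hab
    by_cases h : b ≤ y
    · simp [h, hab.trans h]
    · simp only [h, if_false]
      exact bot_le
  · intro x a b hab
    by_cases h : x ≤ a
    · simp [h, h.trans hab]
    · simp only [h, if_false]
      exact bot_le
  · simp
  · simp
  · have : ¬ (1 : Icc (0 : ℝ) 1) ≤ 0 := by
      intro h
      exact h01 (le_antisymm bot_le h)
    simp [this]
  · intro a b hab
    change 1 - (b : ℝ) ^ 2 ≤ 1 - (a : ℝ) ^ 2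
    have h0 := a.2.1
    have h1 : (a : ℝ) ≤ b := hab
    nlinarith
  · ext; simp
  · ext; simp
  · intro x y
    have : (x ≤ y) ↔ ((⟨1 - (y : ℝ) ^ 2, hN y⟩ : Icc (0 : ℝ) 1) ≤ ⟨1 - (x : ℝ) ^ 2, hN x⟩) := by
      rw [Subtype.mk_le_mk, ← Subtype.coe_le_coe]
      constructor
      · intro h
        have h0 := x.2.1
        nlinarith
      · intro h
        have h0 := x.2.1
        have h1 := y.2.1
        by_contra hcon
        push Not at hcon
        nlinarith
    simp only [this]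
  · intro h
    have h2 := h ⟨1 / 2, by norm_num⟩ ⟨18 / 25, by norm_num⟩
    simp only [Subtype.mk_le_mk] at h2
    norm_num at h2
  · intro h
    have h2 := h ⟨1 / 2, by norm_num⟩ ⟨18 / 25, by norm_num⟩
    simp only [Subtype.mk_le_mk] at h2
    norm_num at h2

end Pool.Agent.Results.MP_e504dd_lc.OnlyCP
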